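import Pool.Agent.VTP.StmtsG

/-!
# Squad VTP, row AMB: passage to the graded group
-/

set_option autoImplicit false

namespace Pool.Agent.VTP.H8

open Finset Pool.Agent.ZOL Pool.Agent.VTP

section

variable {Z : Type} [AddCommGroup Z]

/-- Families which vanish in the graded group. -/
def NN0 (G : ℕ → AddSubgroup Z) : AddSubgroup (ℕ → Z) where
  carrier := {f | ∀ k, f k ∈ G (k + 1)}
  add_mem' := fun {_ _} ha hb k => add_mem (ha k) (hb k)
  zero_mem' := fun _ => zero_mem _
  neg_mem' := fun {_} ha k => neg_mem (ha k)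

/-- The ambient group. -/
abbrev Amb (G : ℕ → AddSubgroup Z) : Type := (ℕ → Z) ⧸ NN0 G

/-- Raising operator on families. -/
def up (φ : Z →+ Z) (m : ℕ) : (ℕ → Z) →+ (ℕ → Z) where
  toFun f := fun k => if m ≤ k then φ (f (k - m)) else 0
  map_zero' := by
    funext k
    simp
  map_add' := by
    intro f g
    funext k
    by_cases h : m ≤ k
    · simp [h]
    · simp [h]

/-- Lowering operator on families. -/
def dn (φ : Z →+ Z) (m : ℕ) : (ℕ → Z) →+ (ℕ → Z) where
  toFun f := fun k => φ (f (k + m))
  map_zero' := by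
    funext k
    simp
  map_add' := by
    intro f g
    funext k
    simp

/-- The family supported at `k`. -/
def sgl (k : ℕ) : Z →+ (ℕ → Z) where
  toFun g := fun j => if j = k then g else 0
  map_zero' := by
    funext j
    simp
  map_add' := by
    intro f g
    funext j
    by_cases h : j = k
    · simp [h]
    · simp [h]

theorem sgl_apply (k j : ℕ) (g : Z) : sgl k g j = if j = k then g else 0 := rfl

/-- The class map in degree `k`. -/
def cls (G : ℕ → AddSubgroup Z) (k : ℕ) : G k →+ Amb G :=
  ((QuotientAddGroup.mk' (NN0 G)).comp (sgl k)).comp (G k).subtype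

theorem cls_apply (G : ℕ → AddSubgroup Z) (k : ℕ) (g : G k) :
    cls G k g = QuotientAddGroup.mk' (NN0 G) (sgl k g.1) := rfl

theorem amb : AmbStmt := by
  classical
  intro Z _ G I Θ h
  have hup : ∀ m, 2 ≤ m → NN0 G ≤ (NN0 G).comap (up (I m) m) := by
    intro m hm f hf k
    show (if m ≤ k then I m (f (k - m)) else 0) ∈ G (k + 1)
    by_cases hk : m ≤ k
    · rw [if_pos hk]
      have h1 := h.hI m hm _ _ (hf (k - m))
      have e : k - m + 1 + m = k + 1 := by omega
      rwa [e] at h1
    · rw [if_neg hk]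
      exact zero_mem _
  have hdn : ∀ m, 2 ≤ m → ∀ n, NN0 G ≤ (NN0 G).comap (dn (Θ m n) (m * n)) := by
    intro m hm n f hf k
    show Θ m n (f (k + m * n)) ∈ G (k + 1)
    have h1 := h.hT m hm n _ _ (hf (k + m * n))
    have e : k + m * n + 1 - m * n = k + 1 := by omega
    rwa [e] at h1
  let I' : ℕ → Amb G →+ Amb G := fun m =>
    if hm : 2 ≤ m then QuotientAddGroup.map (NN0 G) (NN0 G) (up (I m) m) (hup m hm) else 0
  let Θ' : ℕ → ℕ → Amb G →+ Amb G := fun m n =>
    if hm : 2 ≤ m then QuotientAddGroup.map (NN0 G) (NN0 G) (dn (Θ m n) (m * n)) (hdn m hm n)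
    else 0
  have hI' : ∀ m, 2 ≤ m → ∀ f : ℕ → Z, I' m (QuotientAddGroup.mk' (NN0 G) f) =
      QuotientAddGroup.mk' (NN0 G) (up (I m) m f) := by
    intro m hm f
    simp only [I', dif_pos hm]
    rfl
  have hΘ' : ∀ m, 2 ≤ m → ∀ n, ∀ f : ℕ → Z, Θ' m n (QuotientAddGroup.mk' (NN0 G) f) =
      QuotientAddGroup.mk' (NN0 G) (dn (Θ m n) (m * n) f) := by
    intro m hm n f
    simp only [Θ', dif_pos hm]
    rfl
  have hmk : ∀ f g : ℕ → Z, (∀ k, f k - g k ∈ G (k + 1)) →
      QuotientAddGroup.mk' (NN0 G) f = QuotientAddGroup.mk' (NN0 G) g := by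
    intro f g hfg
    rw [← sub_eq_zero, ← map_sub]
    exact (QuotientAddGroup.eq_zero_iff _).2 (fun k => hfg k)
  have hup_sgl : ∀ m k (φ : Z →+ Z) (g : Z), up φ m (sgl k g) = sgl (k + m) (φ g) := by
    intro m k φ g
    funext j
    show (if m ≤ j then φ (sgl k g (j - m)) else 0) = sgl (k + m) (φ g) j
    rw [sgl_apply, sgl_apply]
    by_cases h1 : m ≤ j
    · rw [if_pos h1]
      by_cases h2 : j = k + m
      · rw [if_pos h2, if_pos (by omega)]
      · rw [if_neg h2, if_neg (by omega), map_zero]
    · rw [if_neg h1, if_neg (by omega)]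
  have hdn_sgl : ∀ m k (φ : Z →+ Z) (g : Z), m ≤ k → dn φ m (sgl k g) = sgl (k - m) (φ g) := by
    intro m k φ g hmk'
    funext j
    show φ (sgl k g (j + m)) = sgl (k - m) (φ g) j
    rw [sgl_apply, sgl_apply]
    by_cases h2 : j + m = k
    · rw [if_pos h2, if_pos (by omega)]
    · rw [if_neg h2, if_neg (by omega), map_zero]
  have hdn_sgl0 : ∀ m k (φ : Z →+ Z) (g : Z), k < m → dn φ m (sgl k g) = 0 := by
    intro m k φ g hmk'
    funext j
    show φ (sgl k g (j + m)) = 0
    rw [sgl_apply, if_neg (by omega), map_zero]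
  refine ⟨Amb G, inferInstance, fun k => (cls G k).range, I', Θ', ?_, ?_⟩
  · refine ⟨?_, ?_, ?_, ?_, ?_, ?_, ?_⟩
    · rintro m hm k x ⟨g, rfl⟩
      rw [cls_apply, hI' m hm, hup_sgl]
      exact ⟨⟨I m g.1, h.hI m hm k _ g.2⟩, rfl⟩
    · rintro m hm n k hk x ⟨g, rfl⟩
      rw [cls_apply, hΘ' m hm, hdn_sgl _ _ _ _ hk]
      exact ⟨⟨Θ m n g.1, h.hT m hm n k _ g.2⟩, rfl⟩
    · rintro m hm n k hk x ⟨g, rfl⟩
      rw [cls_apply, hΘ' m hm, hdn_sgl0 _ _ _ _ hk, map_zero]
    · rintro m hm k x ⟨g, rfl⟩
      rw [cls_apply, hΘ' m hm]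
      congr 1
      funext j
      show Θ m 0 (sgl k g.1 (j + m * 0)) = sgl k g.1 j
      rw [h.h0 m hm]
      rfl
    · rintro m m' hm hm' n n' k x ⟨g, rfl⟩
      rw [cls_apply, hΘ' m' hm', hΘ' m hm, hΘ' m hm, hΘ' m' hm']
      congr 1
      funext j
      show Θ m n (Θ m' n' (sgl k g.1 (j + m * n + m' * n'))) =
        Θ m' n' (Θ m n (sgl k g.1 (j + m' * n' + m * n)))
      rw [h.hcomm m m' hm hm']
      have e : j + m * n + m' * n' = j + m' * n' + m * n := by omega
      rw [e]
    · rintro m hm a b k x ⟨g, rfl⟩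
      rw [cls_apply, hΘ' m hm, hΘ' m hm, hΘ' m hm, ← map_zsmul]
      apply hmk
      intro j
      show Θ m a (Θ m b (sgl k g.1 (j + m * a + m * b))) -
        ((a + b).choose a : ℤ) • Θ m (a + b) (sgl k g.1 (j + m * (a + b))) ∈ G (j + 1)
      have e : j + m * a + m * b = j + m * (a + b) := by ring
      rw [e, sgl_apply]
      by_cases hj : j + m * (a + b) = k
      · rw [if_pos hj]
        have h1 := h.hit m hm a b k (by omega) g.1 g.2
        have e2 : k - m * (a + b) + 1 = j + 1 := by omega
        rwa [e2] at h1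
      · rw [if_neg hj]
        simp
    · rintro m m' hm hm' n k x ⟨g, rfl⟩
      have key : ∀ j, dn (Θ m' (n + 1)) (m' * (n + 1)) (up (I m) m (sgl k g.1)) j -
          (up (I m) m (dn (Θ m' (n + 1)) (m' * (n + 1)) (sgl k g.1)) j +
            (if m = m' then dn (Θ m' n) (m' * n) (sgl k g.1) j else 0)) ∈ G (j + 1) := by
        intro j
        rw [hup_sgl]
        show Θ m' (n + 1) (sgl (k + m) (I m g.1) (j + m' * (n + 1))) -
          ((if m ≤ j then I m (Θ m' (n + 1) (sgl k g.1 (j - m + m' * (n + 1)))) else 0) +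
            (if m = m' then Θ m' n (sgl k g.1 (j + m' * n)) else 0)) ∈ G (j + 1)
        have e0 : m' * (n + 1) = m' * n + m' := by ring
        have hr := h.hrel m m' hm hm' n k g.1 g.2
        rw [sgl_apply, sgl_apply, sgl_apply]
        by_cases hj : j + m' * (n + 1) = k + m
        · rw [if_pos hj]
          have e1 : k + m + 1 - m' * (n + 1) = j + 1 := by omega
          rw [e1] at hr
          have e3 : (if m = m' then Θ m' n (if j + m' * n = k then g.1 else 0) else 0) =
              (if m = m' then Θ m' n g.1 else 0) := by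
            by_cases hmm : m = m'
            · rw [if_pos hmm, if_pos hmm, if_pos (by omega)]
            · rw [if_neg hmm, if_neg hmm]
          rw [e3]
          by_cases hmj : m ≤ j
          · rw [if_pos hmj, if_pos (by omega), ← _root_.sub_sub]
            exact hr
          · rw [if_neg hmj, zero_add]
            have h2 : I m (Θ m' (n + 1) g.1) ∈ G (j + 1) := by
              have h3 := h.hI m hm _ _ (h.hT m' hm' (n + 1) k _ g.2)
              exact h.anti (by omega) h3
            have h4 := add_mem hr h2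
            have e5 : Θ m' (n + 1) (I m g.1) - I m (Θ m' (n + 1) g.1) -
                (if m = m' then Θ m' n g.1 else 0) + I m (Θ m' (n + 1) g.1) =
                Θ m' (n + 1) (I m g.1) - (if m = m' then Θ m' n g.1 else 0) := by abel
            rwa [e5] at h4
        · rw [if_neg hj, map_zero]
          have e1 : (if m ≤ j then I m (Θ m' (n + 1)
              (if j - m + m' * (n + 1) = k then g.1 else 0)) else 0) = 0 := by
            by_cases hmj : m ≤ j
            · rw [if_pos hmj, if_neg (by omega), map_zero, map_zero]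
            · rw [if_neg hmj]
          have e2 : (if m = m' then Θ m' n (if j + m' * n = k then g.1 else 0) else 0) = 0 := by
            by_cases hmm : m = m'
            · rw [if_pos hmm, if_neg (by omega), map_zero]
            · rw [if_neg hmm]
          rw [e1, e2]
          simp
      rw [cls_apply, hI' m hm, hΘ' m' hm', hΘ' m' hm', hΘ' m' hm', hI' m hm]
      have e6 : (if m = m' then QuotientAddGroup.mk' (NN0 G) (dn (Θ m' n) (m' * n) (sgl k g.1))
          else 0) = QuotientAddGroup.mk' (NN0 G)
            (if m = m' then dn (Θ m' n) (m' * n) (sgl k g.1) else 0) := by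
        by_cases hmm : m = m'
        · rw [if_pos hmm, if_pos hmm]
        · rw [if_neg hmm, if_neg hmm, map_zero]
      rw [e6, ← map_add]
      apply hmk
      intro j
      have h7 := key j
      have e8 : (if m = m' then dn (Θ m' n) (m' * n) (sgl k g.1) else 0) j =
          (if m = m' then dn (Θ m' n) (m' * n) (sgl k g.1) j else 0) := by
        by_cases hmm : m = m'
        · rw [if_pos hmm, if_pos hmm]
        · rw [if_neg hmm, if_neg hmm]
          rfl
      rw [Pi.add_apply, e8]
      exact h7
  · intro k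
    have hker : (cls G k).ker = (G (k + 1)).addSubgroupOf (G k) := by
      ext g
      rw [AddMonoidHom.mem_ker, cls_apply, AddSubgroup.mem_addSubgroupOf]
      have e : QuotientAddGroup.mk' (NN0 G) (sgl k g.1) = 0 ↔ sgl k g.1 ∈ NN0 G :=
        QuotientAddGroup.eq_zero_iff _
      rw [e]
      constructor
      · intro hg
        have h1 := hg k
        rwa [sgl_apply, if_pos rfl] at h1
      · intro hg j
        rw [sgl_apply]
        by_cases hj : j = k
        · rw [if_pos hj, hj]
          exact hg
        · rw [if_neg hj]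
          exact zero_mem _
    exact ⟨((QuotientAddGroup.quotientAddEquivOfEq hker.symm).trans
      (QuotientAddGroup.quotientKerEquivRange (cls G k))).symm⟩

end

end Pool.Agent.VTP.H8
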